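import Pool.Agent.N236.UR.Stm

/-!
# Project UR, part LEV: no two levels with branching divisible by `r` in one window
-/

set_option autoImplicit false

namespace Pool.Agent.N878.UR

open Pool.Agent.N236.UB Pool.Agent.N236.UR

/-! ### Subgroups of the integers -/

lemma gen (P : ℤ → Prop) (h0 : P 0) (hadd : ∀ a b, P a → P b → P (a + b))
    (hneg : ∀ a, P a → P (-a)) (n : ℕ) (hn : 0 < n) (hP : P n) :
    ∃ M : ℕ, 0 < M ∧ ∀ a : ℤ, P a ↔ (M : ℤ) ∣ a := by
  let S : AddSubgroup ℤ :=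
    { carrier := {a | P a}
      zero_mem' := h0
      add_mem' := fun {a b} ha hb => hadd a b ha hb
      neg_mem' := fun {a} ha => hneg a ha }
  obtain ⟨a, ha⟩ := Int.subgroup_cyclic S
  have key : ∀ b : ℤ, P b ↔ (a.natAbs : ℤ) ∣ b := by
    intro b
    have h1 : P b ↔ b ∈ S := Iff.rfl
    rw [h1, ha, AddSubgroup.mem_closure_singleton, Int.natAbs_dvd]
    constructor
    · rintro ⟨k, rfl⟩
      rw [smul_eq_mul]
      exact dvd_mul_left a k
    · rintro ⟨k, rfl⟩
      exact ⟨k, by rw [smul_eq_mul, mul_comm]⟩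
  refine ⟨a.natAbs, ?_, key⟩
  rw [Int.natAbs_pos]
  rintro rfl
  have h2 := (key n).1 hP
  rw [Int.natAbs_zero, Nat.cast_zero, zero_dvd_iff] at h2
  omega

/-- one level -/
lemma level (H : ℤ → ℝ) (n : ℕ) (hn : 0 < n) (h0 : ∀ i, H i = 0 ↔ (n : ℤ) ∣ i)
    (hnn : ∀ i, 0 ≤ H i) (hadd : ∀ a b, H (a + b) ≤ max (H a) (H b)) (hneg : ∀ a, H (-a) = H a)
    (r j : ℕ) (hr : r.Prime) (hj : 1 ≤ j) (hrn : r ^ j ∣ n) :
    ∃ M C : ℕ, 0 < M ∧ 1 < C ∧ r ∣ C ∧ H M = H ((n / r ^ j : ℕ) : ℤ) ∧ 0 < H M ∧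
      (∀ a, H a ≤ H M ↔ (M : ℤ) ∣ a) ∧ (∀ a, H a < H M ↔ ((C * M : ℕ) : ℤ) ∣ a) := by
  obtain ⟨n', hn'⟩ := hrn
  have hrj : 0 < r ^ j := pow_pos hr.pos j
  have hdiv : n / r ^ j = n' := by rw [hn', Nat.mul_div_cancel_left _ hrj]
  rw [hdiv]
  have hn'0 : 0 < n' := by
    rcases Nat.eq_zero_or_pos n' with h | h
    · rw [h, mul_zero] at hn'; omega
    · exact h
  set s := H (n' : ℤ) with hs
  have hs0 : 0 < s := by
    refine lt_of_le_of_ne (hnn _) fun h => ?_
    have h1 : (n : ℤ) ∣ n' := (h0 _).1 h.symm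
    have h2 : n ∣ n' := by exact_mod_cast h1
    have h3 := Nat.le_of_dvd hn'0 h2
    have h4 : 2 ≤ r ^ j := hr.two_le.trans (Nat.le_self_pow (by omega) r)
    rw [hn'] at h3
    nlinarith
  have hH0 : H 0 = 0 := (h0 0).2 (dvd_zero _)
  have hHn : H n = 0 := (h0 n).2 dvd_rfl
  obtain ⟨M, hM0, hM⟩ := gen (fun a => H a ≤ s) (by rw [hH0]; exact hs0.le)
    (fun a b ha hb => (hadd a b).trans (max_le ha hb)) (fun a ha => by rw [hneg]; exact ha) n hn
    (by rw [hHn]; exact hs0.le)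
  obtain ⟨D, hD0, hD⟩ := gen (fun a => H a < s) (by rw [hH0]; exact hs0)
    (fun a b ha hb => (hadd a b).trans_lt (max_lt ha hb)) (fun a ha => by rw [hneg]; exact ha) n hn
    (by rw [hHn]; exact hs0)
  have hMn' : (M : ℤ) ∣ n' := (hM n').1 le_rfl
  have hMle : H M ≤ s := (hM M).2 dvd_rfl
  have hMs : H M = s := by
    refine le_antisymm hMle (not_lt.1 fun h => ?_)
    have h1 : (D : ℤ) ∣ n' := ((hD M).1 h).trans hMn'
    exact lt_irrefl _ ((hD n').2 h1)
  have hMD : (M : ℤ) ∣ D := (hM D).1 ((hD D).2 dvd_rfl).le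
  obtain ⟨C, hC⟩ : M ∣ D := by exact_mod_cast hMD
  have hC1 : 1 < C := by
    rcases Nat.lt_or_ge 1 C with h | h
    · exact h
    · exfalso
      interval_cases C
      · rw [mul_zero] at hC; omega
      · rw [mul_one] at hC
        have := (hD M).2 (by rw [hC])
        rw [hMs] at this
        exact lt_irrefl _ this
  refine ⟨M, C, hM0, hC1, ?_, hMs, by rw [hMs]; exact hs0, by rw [hMs]; exact hM, ?_⟩
  · by_contra hrC
    have hcop : Nat.Coprime C (r ^ j) := ((Nat.Prime.coprime_iff_not_dvd hr).2 hrC).symm.pow_right j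
    have hDn : D ∣ n := by
      have := (hD n).1 (by rw [hHn]; exact hs0)
      exact_mod_cast this
    obtain ⟨m', hm'⟩ : M ∣ n' := by exact_mod_cast hMn'
    have h1 : M * C ∣ M * (r ^ j * m') := by
      rw [← hC]
      have : M * (r ^ j * m') = n := by rw [hn', hm']; ring
      rw [this]; exact hDn
    have h2 : C ∣ r ^ j * m' := Nat.dvd_of_mul_dvd_mul_left hM0 h1
    have h3 : C ∣ m' := hcop.dvd_of_dvd_mul_left h2
    have h4 : D ∣ n' := by
      rw [hC, hm']
      exact Nat.mul_dvd_mul_left M h3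
    have h5 : H n' < s := (hD n').2 (by exact_mod_cast h4)
    exact lt_irrefl _ h5
  · rw [hMs, mul_comm C M, ← hC]
    exact hD

/-! ### Nonarchimedean estimates -/

section na

variable {L : Type} [Field L] {v : AbsoluteValue L ℝ} (hv : ∀ x y : L, v (x + y) ≤ max (v x) (v y))

include hv

lemma v_eq_one {q κ : L} (hκ : v κ = 1) (h : v (q - κ) < 1) : v q = 1 := by
  apply le_antisymm
  · have h1 := hv (q - κ) κ
    rw [sub_add_cancel, hκ] at h1
    exact h1.trans (max_le h.le le_rfl)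
  · have h1 := hv (κ - q) q
    rw [sub_add_cancel, hκ, v.map_sub] at h1
    rcases le_max_iff.1 h1 with h2 | h2
    · exact absurd h (not_lt.2 h2)
    · exact h2

lemma recur {b : ℕ → L} {κ : L} {B : ℝ} (hB : 0 < B) (hb0 : v (b 0) = B) (hκ : v κ = 1)
    (h : ∀ i, ∃ q, v (q - κ) < 1 ∧ b (i + 1) = q * b i) :
    ∀ i, v (b i) = B ∧ v (b i - κ ^ i * b 0) < B := by
  intro i
  induction i with
  | zero =>
    refine ⟨hb0, ?_⟩
    rw [pow_zero, one_mul, sub_self, map_zero]; exact hB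
  | succ i ih =>
    obtain ⟨q, hq, hbi⟩ := h i
    refine ⟨?_, ?_⟩
    · rw [hbi, map_mul, v_eq_one hv hκ hq, one_mul, ih.1]
    · have e : b (i + 1) - κ ^ (i + 1) * b 0 =
          (q - κ) * b i + κ * (b i - κ ^ i * b 0) := by
        rw [hbi]; ring
      rw [e]
      refine (hv _ _).trans_lt (max_lt ?_ ?_)
      · rw [map_mul, ih.1]
        nlinarith
      · rw [map_mul, hκ, one_mul]
        exact ih.2

lemma sum_lt {e : ℕ → L} {B : ℝ} (hB : 0 < B) (h : ∀ i, v (e i) < B) (k : ℕ) :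
    v (∑ i ∈ Finset.range k, e i) < B := by
  induction k with
  | zero => rw [Finset.sum_range_zero, map_zero]; exact hB
  | succ k ih =>
    rw [Finset.sum_range_succ]
    exact (hv _ _).trans_lt (max_lt ih (h k))

end na

/-! ### The coordinate -/

/-- the coordinate -/
noncomputable def T {L : Type} [Field L] (V : ℤ → L × L) (u x : ℤ) : L :=
  wd (V x) (V 0) / wd (V x) (V u)

lemma T_sub {L : Type} [Field L] (V : ℤ → L × L) {u x y : ℤ} (hx : wd (V x) (V u) ≠ 0)
    (hy : wd (V y) (V u) ≠ 0) : T V u x - T V u y =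
      wd (V x) (V y) * wd (V 0) (V u) / (wd (V x) (V u) * wd (V y) (V u)) := by
  unfold T
  rw [div_sub_div _ _ hx hy]
  congr 1
  unfold wd
  ring

lemma T_shift {L : Type} [Field L] (V : ℤ → L × L) {u x y m : ℤ} (hx : wd (V x) (V u) ≠ 0)
    (hy : wd (V y) (V u) ≠ 0) (hx' : wd (V (x + m)) (V u) ≠ 0) (hy' : wd (V (y + m)) (V u) ≠ 0)
    (hxy : wd (V x) (V y) ≠ 0) :
    T V u (x + m) - T V u (y + m) = kap V u m x y * (T V u x - T V u y) := by
  rw [T_sub V hx hy, T_sub V hx' hy']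
  unfold kap
  field_simp

/-- absolute value of a difference of coordinates -/
lemma v_T {L : Type} [Field L] {v : AbsoluteValue L ℝ} {V : ℤ → L × L} {c : ℤ → ℝ}
    (hc : ∀ i, 0 < c i) {u x y : ℤ} {D : ℝ} (hD : 0 < D) (h0 : dl v V c 0 u = D)
    (hx : dl v V c x u = D) (hy : dl v V c y u = D) :
    v (T V u x - T V u y) = c u / (c 0 * D) * dl v V c x y := by
  have hx0 : wd (V x) (V u) ≠ 0 := by
    intro h
    unfold dl at hx
    rw [h, map_zero, mul_zero] at hx
    exact hD.ne hx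
  have hy0 : wd (V y) (V u) ≠ 0 := by
    intro h
    unfold dl at hy
    rw [h, map_zero, mul_zero] at hy
    exact hD.ne hy
  rw [T_sub V hx0 hy0, map_div₀, map_mul, map_mul]
  have e0 : v (wd (V 0) (V u)) = D / (c 0 * c u) := by
    rw [eq_div_iff (mul_pos (hc 0) (hc u)).ne', ← h0]; unfold dl; ring
  have ex : v (wd (V x) (V u)) = D / (c x * c u) := by
    rw [eq_div_iff (mul_pos (hc x) (hc u)).ne', ← hx]; unfold dl; ring
  have ey : v (wd (V y) (V u)) = D / (c y * c u) := by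
    rw [eq_div_iff (mul_pos (hc y) (hc u)).ne', ← hy]; unfold dl; ring
  rw [e0, ex, ey]
  unfold dl
  have h1 := (hc 0).ne'
  have h2 := (hc u).ne'
  have h3 := (hc x).ne'
  have h4 := (hc y).ne'
  have h5 := hD.ne'
  field_simp

theorem t_lev : S_ULT → S_KAP → S_LEV := by
  intro hULT hKAP L _ v p q e n k V c rel d hloc hp hn hfull r j j' u hr hrp hj hjj' hrn hss' hs'u hwin
  have hcfg : Cfg v n V c := hfull.1
  obtain ⟨hult, hsh, hsym, hzero, hnn⟩ := hULT L v p q e n V c hloc hn hcfg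
  have hc : ∀ i, 0 < c i := hcfg.2.1
  have hv := hloc.1
  have hvp : v (p : L) < 1 := hloc.2.2.1
  set H : ℤ → ℝ := fun i => dl v V c 0 i with hH
  have hdl : ∀ x y : ℤ, dl v V c x y = H (y - x) := by
    intro x y
    have := hsh 0 (y - x) x
    rw [zero_add, sub_add_cancel] at this
    exact this
  have hneg : ∀ a, H (-a) = H a := by
    intro a
    have h1 : dl v V c a 0 = H (0 - a) := hdl a 0
    rw [zero_sub] at h1
    rw [← h1, hsym]
  have hadd : ∀ a b, H (a + b) ≤ max (H a) (H b) := by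
    intro a b
    have h1 := hult 0 (a + b) a
    rw [hdl a (a + b), add_sub_cancel_left] at h1
    exact h1
  have h0 : ∀ i, H i = 0 ↔ (n : ℤ) ∣ i := by
    intro i
    have h1 := hzero 0 i
    rw [zero_sub, dvd_neg] at h1
    exact h1
  have hHnn : ∀ i, 0 ≤ H i := fun i => hnn 0 i
  obtain ⟨M', C', hM'0, hC'1, hrC', hHM', hpos', hle', hlt'⟩ :=
    level H n (by omega) h0 hHnn hadd hneg r j' hr (by omega) hrn
  obtain ⟨M, C, hM0, hC1, hrC, hHM, hpos, hle, hlt⟩ :=
    level H n (by omega) h0 hHnn hadd hneg r j hr hj ((pow_dvd_pow r hjj'.le).trans hrn)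
  have hss : H M < H M' := by rw [hHM, hHM']; exact hss'
  have hsu : H M' < H u := by rw [hHM']; exact hs'u
  have hD : 0 < H u := hpos'.trans hsu
  -- points of the large ball
  have hxu : ∀ x : ℤ, H x ≤ H M' → dl v V c x u = H u := by
    intro x hx
    apply le_antisymm
    · have h1 := hult x u 0
      rw [hsym x 0] at h1
      exact h1.trans (max_le ((hx.trans hsu.le)) le_rfl)
    · have h1 := hult 0 u x
      rcases le_max_iff.1 h1 with h2 | h2
      · exact absurd (h2.trans hx) (not_le.2 hsu)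
      · exact h2
  have hwne : ∀ x : ℤ, H x ≤ H M' → wd (V x) (V u) ≠ 0 := by
    intro x hx h
    have h1 := hxu x hx
    unfold dl at h1
    rw [h, map_zero, mul_zero] at h1
    exact hD.ne h1
  have h0le : H 0 ≤ H M' := by rw [(h0 0).2 (dvd_zero _)]; exact hpos'.le
  set Kc : ℝ := c u / (c 0 * H u) with hKc
  have hKc0 : 0 < Kc := div_pos (hc u) (mul_pos (hc 0) hD)
  have hvT : ∀ x y : ℤ, H x ≤ H M' → H y ≤ H M' →
      v (T V u x - T V u y) = Kc * H (y - x) := by
    intro x y hx hy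
    rw [v_T hc hD rfl (hxu x hx) (hxu y hy), ← hdl]
  -- the multiplier
  have hkap := hKAP L v p q e n k V c rel d hloc hn hfull (H M) (H M') u hpos hss.le hsu
    (by rw [hHM, hHM']; exact hwin)
  set κ : L := kap V u M' M' 0 with hκ
  have hM's : H M ≤ dl v V c M' 0 := by rw [hsym]; exact hss.le
  have hκ1 : v κ = 1 := (hkap M' le_rfl M' 0 M' 0 le_rfl h0le le_rfl h0le hM's hM's).1
  have hkq : ∀ x y : ℤ, H x ≤ H M' → H y ≤ H M' → H M ≤ H (y - x) →
      v (kap V u M' x y - κ) < 1 := by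
    intro x y hx hy hxy
    exact (hkap M' le_rfl x y M' 0 hx hy le_rfl h0le (by rw [hdl]; exact hxy) hM's).2
  have hmem : ∀ (x : ℤ) (i : ℕ), H x ≤ H M' → H (x + i * M') ≤ H M' := by
    intro x i hx
    refine (hadd _ _).trans (max_le hx ?_)
    rw [hle']
    exact dvd_mul_left _ _
  -- iteration of the shift by `M'`
  have hpair : ∀ x y : ℤ, H x ≤ H M' → H y ≤ H M' → H M ≤ H (y - x) → ∀ i : ℕ,
      v ((T V u (x + i * M') - T V u (y + i * M')) - κ ^ i * (T V u x - T V u y)) <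
        Kc * H (y - x) := by
    intro x y hx hy hxy i
    have hB : 0 < Kc * H (y - x) := mul_pos hKc0 (hpos.trans_le hxy)
    have h1 := recur hv (b := fun i : ℕ => T V u (x + i * M') - T V u (y + i * M')) (κ := κ) hB
      (by simp only [Nat.cast_zero, zero_mul, add_zero]; exact hvT x y hx hy) hκ1 ?_ i
    · have h2 := h1.2
      simp only [Nat.cast_zero, zero_mul, add_zero] at h2
      exact h2
    · intro i
      have e3 : y + i * M' - (x + i * M') = y - x := by ring
      refine ⟨kap V u M' (x + i * M') (y + i * M'), hkq _ _ (hmem x i hx) (hmem y i hy)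
        (by rw [e3]; exact hxy), ?_⟩
      have e1 : x + ((i + 1 : ℕ) : ℤ) * M' = (x + i * M') + M' := by push_cast; ring
      have e2 : y + ((i + 1 : ℕ) : ℤ) * M' = (y + i * M') + M' := by push_cast; ring
      show T V u (x + ((i + 1 : ℕ) : ℤ) * M') - T V u (y + ((i + 1 : ℕ) : ℤ) * M') = _
      rw [e1, e2]
      refine T_shift V (hwne _ (hmem x i hx)) (hwne _ (hmem y i hy)) ?_ ?_ ?_
      · rw [← e1]; exact hwne _ (hmem x _ hx)
      · rw [← e2]; exact hwne _ (hmem y _ hy)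
      · intro h
        have h3 : dl v V c (x + i * M') (y + i * M') = 0 := by unfold dl; rw [h, map_zero, mul_zero]
        rw [hdl, e3] at h3
        exact (hpos.trans_le hxy).ne' h3
  -- telescoping sums
  have htel : ∀ (m : ℤ) (k : ℕ), T V u (k * m) - T V u 0 =
      ∑ i ∈ Finset.range k, (T V u (((i + 1 : ℕ) : ℤ) * m) - T V u ((i : ℤ) * m)) := by
    intro m k
    rw [Finset.sum_range_sub (fun i : ℕ => T V u ((i : ℤ) * m))]
    simp
  -- STEP 1
  have hstep1 : v (κ ^ C' - 1) < 1 := by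
    have hB : 0 < Kc * H M' := mul_pos hKc0 hpos'
    have h1 : ∀ i : ℕ, v ((T V u (((i + 1 : ℕ) : ℤ) * M') - T V u ((i : ℤ) * M')) -
        κ ^ i * (T V u M' - T V u 0)) < Kc * H M' := by
      intro i
      have h2 := hpair M' 0 le_rfl h0le (by rw [zero_sub, hneg]; exact hss.le) i
      rw [zero_sub, hneg, zero_add] at h2
      have e : (M' : ℤ) + i * M' = ((i + 1 : ℕ) : ℤ) * M' := by push_cast; ring
      rw [e] at h2
      exact h2
    have h3 := sum_lt hv hB h1 C'
    rw [Finset.sum_sub_distrib, ← htel, ← Finset.sum_mul] at h3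
    have h4 : v (T V u (C' * M') - T V u 0) < Kc * H M' := by
      have h5 : H ((C' : ℤ) * M') < H M' := (hlt' _).2 (by push_cast; exact dvd_rfl)
      rw [hvT _ _ h5.le h0le, zero_sub, hneg]
      exact mul_lt_mul_of_pos_left h5 hKc0
    have h6 : v ((∑ i ∈ Finset.range C', κ ^ i) * (T V u M' - T V u 0)) < Kc * H M' := by
      have e : (∑ i ∈ Finset.range C', κ ^ i) * (T V u M' - T V u 0) =
          (T V u (C' * M') - T V u 0) + -((T V u (C' * M') - T V u 0) -
            (∑ i ∈ Finset.range C', κ ^ i) * (T V u M' - T V u 0)) := by ring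
      rw [e]
      refine (hv _ _).trans_lt (max_lt h4 ?_)
      rw [v.map_neg]; exact h3
    rw [map_mul, hvT _ _ le_rfl h0le, zero_sub, hneg] at h6
    have h7 : v (∑ i ∈ Finset.range C', κ ^ i) < 1 := by
      by_contra hcon
      rw [not_lt] at hcon
      nlinarith
    have h8 := mul_geom_sum κ C'
    rw [← h8, map_mul]
    have h9 : v (κ - 1) ≤ 1 := by
      rw [sub_eq_add_neg]
      refine (hv _ _).trans (max_le hκ1.le ?_)
      rw [v.map_neg, map_one]
    have h10 : 0 ≤ v (∑ i ∈ Finset.range C', κ ^ i) := v.nonneg _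
    nlinarith
  -- STEP 2
  have hCM : ((C' * M' : ℕ) : ℤ) ∣ M := (hlt' _).1 hss
  obtain ⟨z, hz⟩ : C' * M' ∣ M := by exact_mod_cast hCM
  have hκM : v (κ ^ (C' * z) - 1) < 1 := by
    have h1 : ∀ z : ℕ, v ((κ ^ C') ^ z - 1) < 1 := by
      intro z
      induction z with
      | zero => rw [pow_zero, sub_self, map_zero]; exact one_pos
      | succ z ih =>
        have e : (κ ^ C') ^ (z + 1) - 1 = κ ^ C' * ((κ ^ C') ^ z - 1) + (κ ^ C' - 1) := by ring
        rw [e]
        refine (hv _ _).trans_lt (max_lt ?_ hstep1)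
        rw [map_mul, map_pow, hκ1, one_pow, one_mul]
        exact ih
    rw [pow_mul]
    exact h1 z
  have hMz : (M : ℤ) = ((C' * z : ℕ) : ℤ) * M' := by rw [hz]; push_cast; ring
  have hMle : ∀ i : ℕ, H ((i : ℤ) * M) ≤ H M' := by
    intro i
    have : H ((i : ℤ) * M) ≤ H M := (hle _).2 (dvd_mul_left _ _)
    exact this.trans hss.le
  have hBM : 0 < Kc * H M := mul_pos hKc0 hpos
  have hstep2 : ∀ i : ℕ, v ((T V u (((i + 2 : ℕ) : ℤ) * M) - T V u (((i + 1 : ℕ) : ℤ) * M)) -
      (T V u (((i + 1 : ℕ) : ℤ) * M) - T V u ((i : ℤ) * M))) < Kc * H M := by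
    intro i
    have hd : H ((i : ℤ) * M - ((i + 1 : ℕ) : ℤ) * M) = H M := by
      have : (i : ℤ) * M - ((i + 1 : ℕ) : ℤ) * M = -M := by push_cast; ring
      rw [this, hneg]
    have h1 := hpair (((i + 1 : ℕ) : ℤ) * M) ((i : ℤ) * M) (hMle _) (hMle _) (by rw [hd]) (C' * z)
    rw [← hMz, hd] at h1
    have e1 : ((i + 1 : ℕ) : ℤ) * M + M = ((i + 2 : ℕ) : ℤ) * M := by push_cast; ring
    have e2 : (i : ℤ) * M + M = ((i + 1 : ℕ) : ℤ) * M := by push_cast; ring
    rw [e1, e2] at h1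
    set a := T V u (((i + 2 : ℕ) : ℤ) * M) - T V u (((i + 1 : ℕ) : ℤ) * M)
    set b := T V u (((i + 1 : ℕ) : ℤ) * M) - T V u ((i : ℤ) * M) with hb
    have e3 : a - b = (a - κ ^ (C' * z) * b) + (κ ^ (C' * z) - 1) * b := by ring
    rw [e3]
    refine (hv _ _).trans_lt (max_lt h1 ?_)
    rw [map_mul]
    have h2 : v b = Kc * H M := by rw [hb, hvT _ _ (hMle _) (hMle _), hd]
    rw [h2]
    nlinarith
  have hstep3 : ∀ i : ℕ, v ((T V u (((i + 1 : ℕ) : ℤ) * M) - T V u ((i : ℤ) * M)) -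
      (T V u M - T V u 0)) < Kc * H M := by
    intro i
    induction i with
    | zero => simpa using hBM
    | succ i ih =>
      have e : (T V u (((i + 1 + 1 : ℕ) : ℤ) * M) - T V u (((i + 1 : ℕ) : ℤ) * M)) -
          (T V u M - T V u 0) =
          ((T V u (((i + 2 : ℕ) : ℤ) * M) - T V u (((i + 1 : ℕ) : ℤ) * M)) -
            (T V u (((i + 1 : ℕ) : ℤ) * M) - T V u ((i : ℤ) * M))) +
          ((T V u (((i + 1 : ℕ) : ℤ) * M) - T V u ((i : ℤ) * M)) - (T V u M - T V u 0)) := by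
        ring
      rw [e]
      exact (hv _ _).trans_lt (max_lt (hstep2 i) ih)
  have hfin : H ((p : ℤ) * M) < H M := by
    have h1 := sum_lt hv hBM hstep3 p
    rw [Finset.sum_sub_distrib, ← htel, Finset.sum_const, Finset.card_range, nsmul_eq_mul] at h1
    have hM1 : H M ≤ H M' := hss.le
    have h2 : v ((p : L) * (T V u M - T V u 0)) < Kc * H M := by
      rw [map_mul, hvT _ _ hM1 h0le, zero_sub, hneg]
      nlinarith
    have h3 : v (T V u (p * M) - T V u 0) < Kc * H M := by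
      have e : T V u (p * M) - T V u 0 = (T V u (p * M) - T V u 0 - (p : L) * (T V u M - T V u 0)) +
          (p : L) * (T V u M - T V u 0) := by ring
      rw [e]
      exact (hv _ _).trans_lt (max_lt h1 h2)
    rw [hvT _ _ (hMle p) h0le, zero_sub, hneg] at h3
    exact lt_of_mul_lt_mul_left h3 hKc0.le
  have h4 := (hlt _).1 hfin
  have h5 : C * M ∣ p * M := by exact_mod_cast h4
  have h6 : C ∣ p := Nat.dvd_of_mul_dvd_mul_right hM0 h5
  rcases (Nat.dvd_prime hp).1 h6 with h7 | h7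
  · omega
  · rw [h7] at hrC
    exact hrp ((Nat.prime_dvd_prime_iff_eq hr hp).1 hrC)

end Pool.Agent.N878.UR
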